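import Pool.Agent.V1155.MTInj

/-!
# MP_5dc1dd_co: irreducible monohedral multiple tilings by rectangles and by triangles

The plane is `ℂ`. There is a family of pairwise distinct copies of the `1 × 3` rectangle
which is an irreducible multiple tiling of density `2` (Q1: yes), and there is a family of
pairwise distinct copies of the right triangle with legs `1` and `3` which is an irreducible
multiple tiling of density `2` (Q2: yes).

Both are doubly periodic with period lattice `6ℤ × 6ℤ`; the rectangle family has `24`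
rectangles per period, and the triangle family cuts each of them along a diagonal. Some five
tiles form a cycle in which consecutive tiles (and only they, at a suitable point) overlap;
in a splitting into tilings of density one they would have to be coloured alternately.
-/

namespace Pool.Agent.Results.MP_5dc1dd_co.RectangleTriangle

/-- The family of sets `τ i` is a multiple tiling of density `d`: every point of the plane
that lies on the boundary of no member lies in the interiors of exactly `d` members. -/
def IsMultipleTiling {ι : Type} (τ : ι → Set ℂ) (d : ℕ) : Prop :=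
  ∀ z : ℂ, (∀ i, z ∉ frontier (τ i)) → {i | z ∈ interior (τ i)}.encard = d

/-- The family is reducible, as a multiple tiling of density `d`: it can be split into two or
more nonempty subfamilies, each of which is a multiple tiling of some density `1 ≤ d' < d`. -/
def Reducible {ι : Type} (τ : ι → Set ℂ) (d : ℕ) : Prop :=
  ∃ (κ : Type) (c : ι → κ), Nontrivial κ ∧ Function.Surjective c ∧
    ∀ k : κ, ∃ d' : ℕ, 1 ≤ d' ∧ d' < d ∧
      IsMultipleTiling (fun i : {i // c i = k} => τ i) d'

/-- All members are congruent to `P` (by an isometry of the plane, reflections allowed). -/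
def IsMonohedral {ι : Type} (τ : ι → Set ℂ) (P : Set ℂ) : Prop :=
  ∀ i, ∃ e : ℂ ≃ᵢ ℂ, τ i = e '' P

/-- `P` is a (nondegenerate, closed) parallelogram. -/
def IsParallelogram (P : Set ℂ) : Prop :=
  ∃ a u v : ℂ, LinearIndependent ℝ ![u, v] ∧
    P = {z | ∃ s t : ℝ, 0 ≤ s ∧ s ≤ 1 ∧ 0 ≤ t ∧ t ≤ 1 ∧ z = a + s • u + t • v}

/-- `P` is a (nondegenerate, closed) triangle. -/
def IsTriangle (P : Set ℂ) : Prop :=
  ∃ a u v : ℂ, LinearIndependent ℝ ![u, v] ∧
    P = {z | ∃ s t : ℝ, 0 ≤ s ∧ 0 ≤ t ∧ s + t ≤ 1 ∧ z = a + s • u + t • v}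

/-- There is a countable family of pairwise distinct copies of `P` that is an irreducible
multiple tiling of density `d`. -/
def HasIrreducible (P : Set ℂ) (d : ℕ) : Prop :=
  ∃ (ι : Type) (τ : ι → Set ℂ), Countable ι ∧ Function.Injective τ ∧ IsMonohedral τ P ∧
    IsMultipleTiling τ d ∧ ¬ Reducible τ d

/-- Q1 (first part) and Q2 (second part) both have the answer yes, already with density `2`. -/
theorem result :
    (∃ P : Set ℂ, IsParallelogram P ∧ HasIrreducible P 2) ∧
    (∃ P : Set ℂ, IsTriangle P ∧ HasIrreducible P 2) := by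
  refine ⟨⟨V1155.MT.PR, ⟨0, 3, Complex.I, V1155.MT.li, V1155.MT.PR_eq⟩,
      Fin 24 × ℤ × ℤ, V1155.MT.τR, inferInstance, V1155.MT.inj_R, V1155.MT.congr_R, ?_, ?_⟩,
    ⟨V1155.MT.PT, ⟨0, 3, Complex.I, V1155.MT.li, V1155.MT.PT_eq⟩,
      (Fin 24 × ℤ × ℤ) × Bool, V1155.MT.τT, inferInstance, V1155.MT.inj_T,
      V1155.MT.congr_T, ?_, ?_⟩⟩
  · intro z hz
    rw [V1155.MT.setR z hz, V1155.MT.encard_B]
    rfl
  · rintro ⟨κ, c, _, _, h⟩
    obtain ⟨d', h1, h2, h3⟩ := h (c (7, 0, 0))
    obtain rfl : d' = 1 := by omega
    exact V1155.MT.cycleR c (fun z hz => by simpa using h3 z hz)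
  · intro z hz
    rw [V1155.MT.setT z hz]
    rfl
  · rintro ⟨κ, c, _, _, h⟩
    obtain ⟨d', h1, h2, h3⟩ := h (c ((7, 0, 0), false))
    obtain rfl : d' = 1 := by omega
    exact V1155.MT.cycleT c (fun z hz => by simpa using h3 z hz)

end Pool.Agent.Results.MP_5dc1dd_co.RectangleTriangle
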